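import Pool.Agent.Helper75.FS.St

/-!
# Project FS, module B5: every number strictly between the two thresholds is a limit
-/

set_option autoImplicit false

namespace Pool.Agent.Helper30.FS

open Pool.Agent.Helper75.FS

/-- Bernoulli: `(1 - η) n^r ≤ (n-1)^r` for `n` large -/
lemma shift_pow (r : ℕ) {η : ℝ} (hη : 0 < η) :
    ∃ M : ℕ, ∀ n : ℕ, M ≤ n → 1 ≤ n ∧ (1 - η) * (n : ℝ) ^ r ≤ ((n : ℝ) - 1) ^ r := by
  obtain ⟨M, hM⟩ := exists_nat_ge ((r : ℝ) / η)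
  refine ⟨M + 1, fun n hn => ⟨by omega, ?_⟩⟩
  have hn1 : (1 : ℝ) ≤ n := by exact_mod_cast (by omega : 1 ≤ n)
  have hn0 : (0 : ℝ) < n := by linarith
  have hnM : (r : ℝ) / η ≤ n := hM.trans (by exact_mod_cast (by omega : M ≤ n))
  have hr : (r : ℝ) / n ≤ η := by
    rw [div_le_iff₀ hη] at hnM
    rw [div_le_iff₀ hn0]
    linarith
  have hb : 1 + (r : ℝ) * (-(1 / (n : ℝ))) ≤ (1 + -(1 / (n : ℝ))) ^ r := by
    apply one_add_mul_le_pow
    have : 1 / (n : ℝ) ≤ 1 := by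
      rw [div_le_one hn0]; exact hn1
    linarith
  have he : ((n : ℝ) - 1) ^ r = (1 + -(1 / (n : ℝ))) ^ r * (n : ℝ) ^ r := by
    rw [← mul_pow]
    congr 1
    field_simp
    ring
  rw [he]
  apply mul_le_mul_of_nonneg_right _ (by positivity)
  have : (r : ℝ) * (-(1 / (n : ℝ))) = -((r : ℝ) / n) := by ring
  rw [this] at hb
  linarith

theorem hB5 (hA5 : StA5) (hA7 : StA7) (hB1 : StB1) (hB2 : StB2) (hB3 : StB3) : StB5 := by
  intro r hr ρ x hx1 hx2 ε hε N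
  obtain ⟨hL, hmod, -, -⟩ := hB1 r hr
  have hx0 : 1 < x := lt_of_le_of_lt (hL ρ).1 hx1
  obtain ⟨g, hg⟩ : ∃ g : ℝ, g = 2 * LL r (ρ + 1) - x := ⟨_, rfl⟩
  have hg0 : 0 < g := by linarith
  obtain ⟨η, hη0, hη1, hη2, hη3⟩ : ∃ η : ℝ, 0 < η ∧ η ≤ 1 / 2 ∧ η * (x + g) ≤ g / 4 ∧
      η * x ≤ ε / 8 := by
    refine ⟨min (1 / 2) (min (g / 4 / (x + g)) (ε / 8 / x)), ?_, min_le_left _ _, ?_, ?_⟩
    · have h1 : 0 < g / 4 / (x + g) := by positivity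
      have h2 : 0 < ε / 8 / x := by positivity
      exact lt_min (by norm_num) (lt_min h1 h2)
    · have h1 : min (1 / 2) (min (g / 4 / (x + g)) (ε / 8 / x)) ≤ g / 4 / (x + g) :=
        (min_le_right _ _).trans (min_le_left _ _)
      exact (le_div_iff₀ (by linarith)).mp h1
    · have h1 : min (1 / 2) (min (g / 4 / (x + g)) (ε / 8 / x)) ≤ ε / 8 / x :=
        (min_le_right _ _).trans (min_le_right _ _)
      exact (le_div_iff₀ (by linarith)).mp h1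
  obtain ⟨M, hM⟩ := shift_pow r hη0
  obtain ⟨N7, hN7⟩ := hA7 r η hη0
  obtain ⟨C2, hC2⟩ := hB2 r hr (x - LL r ρ) (by linarith)
  obtain ⟨C3, hC3⟩ := hB3 r hr (g / 4) (by linarith)
  obtain ⟨K, hK⟩ : ∃ K : ℕ, K = M + N7 + N := ⟨_, rfl⟩
  obtain ⟨c, hcc⟩ : ∃ c : ℕ, c = ρ + r * (C2 + C3 + K ^ r) := ⟨_, rfl⟩
  have hc0 : C2 + C3 + K ^ r ≤ c := by
    have : 1 * (C2 + C3 + K ^ r) ≤ r * (C2 + C3 + K ^ r) := Nat.mul_le_mul_right _ hr
    omega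
  have hcρ : c ≡ ρ [MOD r] := by
    rw [hcc]
    exact (Nat.modEq_iff_dvd' (by omega)).mpr ⟨C2 + C3 + K ^ r, by omega⟩ |>.symm
  have hc1ρ : c + 1 ≡ ρ + 1 [MOD r] := hcρ.add_right 1
  have hLc : LL r c = LL r ρ := hmod _ _ hcρ
  have hLc1 : LL r (c + 1) = LL r (ρ + 1) := hmod _ _ hc1ρ
  have hD0 : (0 : ℝ) < (r.factorial : ℝ) * 2 ^ c := by positivity
  have hD1 : (2 : ℝ) ^ c ≤ (r.factorial : ℝ) * 2 ^ c := by
    have : (1 : ℝ) ≤ r.factorial := by exact_mod_cast r.factorial_pos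
    nlinarith [pow_pos (two_pos : (0 : ℝ) < 2) c]
  -- the length
  have hex : ∃ n : ℕ, x * ((r.factorial : ℝ) * 2 ^ c) ≤ (n : ℝ) ^ r := by
    obtain ⟨n, hn⟩ := exists_nat_ge (x * ((r.factorial : ℝ) * 2 ^ c))
    refine ⟨n + 1, hn.trans ?_⟩
    have h1 : (1 : ℝ) ≤ (n : ℝ) + 1 := by linarith [(Nat.cast_nonneg n : (0 : ℝ) ≤ n)]
    have h2 : ((n : ℝ) + 1) ≤ ((n : ℝ) + 1) ^ r := le_self_pow₀ h1 (by omega)
    push_cast
    linarith
  classical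
  obtain ⟨n, hn1, hn2⟩ : ∃ n : ℕ, x * ((r.factorial : ℝ) * 2 ^ c) ≤ (n : ℝ) ^ r ∧
      ∀ m : ℕ, m < n → (m : ℝ) ^ r < x * ((r.factorial : ℝ) * 2 ^ c) :=
    ⟨Nat.find hex, Nat.find_spec hex, fun m hm => not_le.mp (Nat.find_min hex hm)⟩
  have hnK : K ≤ n := by
    by_contra hlt
    have h1 : n ^ r ≤ K ^ r := Nat.pow_le_pow_left (by omega) r
    have h2 : K ^ r < 2 ^ c := lt_of_le_of_lt (by omega) (Nat.lt_two_pow_self : c < 2 ^ c)
    have h3 : (n : ℝ) ^ r < 2 ^ c := by exact_mod_cast lt_of_le_of_lt h1 h2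
    have h4 : (2 : ℝ) ^ c ≤ x * ((r.factorial : ℝ) * 2 ^ c) := by nlinarith
    linarith
  obtain ⟨hnpos, hsh⟩ := hM n (by omega)
  have hprev : ((n : ℝ) - 1) ^ r < x * ((r.factorial : ℝ) * 2 ^ c) := by
    have h1 := hn2 (n - 1) (by omega)
    rwa [Nat.cast_sub hnpos, Nat.cast_one] at h1
  obtain ⟨y, hy⟩ : ∃ y : ℝ, y = (n : ℝ) ^ r / ((r.factorial : ℝ) * 2 ^ c) := ⟨_, rfl⟩
  have hyD : y * ((r.factorial : ℝ) * 2 ^ c) = (n : ℝ) ^ r := by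
    rw [hy]; exact div_mul_cancel₀ _ hD0.ne'
  have hxy : x ≤ y := by
    rw [← hyD] at hn1
    exact le_of_mul_le_mul_right hn1 hD0
  have hyx : (1 - η) * y ≤ x := by
    have h1 : (1 - η) * y * ((r.factorial : ℝ) * 2 ^ c) ≤ x * ((r.factorial : ℝ) * 2 ^ c) := by
      calc (1 - η) * y * ((r.factorial : ℝ) * 2 ^ c) = (1 - η) * (n : ℝ) ^ r := by
            rw [← hyD]; ring
        _ ≤ ((n : ℝ) - 1) ^ r := hsh
        _ ≤ _ := hprev.le
    exact le_of_mul_le_mul_right h1 hD0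
  have hcode : Code n r c := by
    apply hC2 c (by omega) n
    rw [hLc]
    have : LL r ρ + (x - LL r ρ) = x := by ring
    rw [this]
    exact hn1
  have hncode : ¬ Code n r (c + 1) := by
    intro hcd
    have h1 := hC3 (c + 1) (by omega) n hcd
    rw [hLc1, ← hyD, pow_succ] at h1
    have h2 : (2 * (LL r (ρ + 1) - g / 4)) * ((r.factorial : ℝ) * 2 ^ c) ≤
        y * ((r.factorial : ℝ) * 2 ^ c) := by
      calc _ = (LL r (ρ + 1) - g / 4) * ((r.factorial : ℝ) * (2 ^ c * 2)) := by ring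
        _ ≤ _ := h1
    have h3 : 2 * (LL r (ρ + 1) - g / 4) ≤ y := le_of_mul_le_mul_right h2 hD0
    have h4 : x + g / 2 ≤ y := by linarith
    nlinarith
  have hm1 : mm n r = (ball n r : ℝ) / 2 ^ c :=
    le_antisymm (hA5.1 n r c hcode) (hA5.2.2 n r c hncode)
  obtain ⟨hb1, hb2⟩ := hN7 n (by omega)
  have hyb : (n : ℝ) ^ r / r.factorial = y * 2 ^ c := by
    rw [← hyD]
    have : (r.factorial : ℝ) ≠ 0 := by positivity
    field_simp
  rw [hyb] at hb1 hb2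
  have h2c : (0 : ℝ) < 2 ^ c := by positivity
  have hq1 : (1 - η) * y ≤ (ball n r : ℝ) / 2 ^ c := by
    rw [le_div_iff₀ h2c]
    linarith
  have hq2 : (ball n r : ℝ) / 2 ^ c ≤ (1 + η) * y := by
    rw [div_le_iff₀ h2c]
    linarith
  refine ⟨n, by omega, ?_⟩
  rw [hm1, abs_lt]
  have hyx2 : y ≤ 2 * x := by nlinarith
  constructor
  · nlinarith
  · nlinarith

end Pool.Agent.Helper30.FS
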